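import Pool.Agent.CYE.StmtsB

/-! # Squad CYE, row ARI: the arithmetic input -/

set_option autoImplicit false

open Polynomial IsLocalRing

namespace Pool.Agent.CYE.H21

open Pool.Agent.CYD

theorem vx_mono {ι : Type} [Fintype ι] [DecidableEq ι] {q : ι → ℕ} {P Q : Pt q → Prop}
    (hPQ : ∀ v, P v → Q v) (T : List (ι × Bool)) : ∀ b s : Pt q, Vx P T b s → Vx Q T b s := by
  induction T with
  | nil =>
    intro b s h
    exact hPQ b h
  | cons x t ih =>
    obtain ⟨i, c⟩ := x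
    intro b s h
    cases c
    · have h' : Vx P t (sh i s b) s ∧ Vx P t b s := h
      exact ⟨ih _ _ h'.1, ih _ _ h'.2⟩
    · have h' : Vx P t (fr i b) (fr i s) ∧ Vx P t b s := h
      exact ⟨ih _ _ h'.1, ih _ _ h'.2⟩

theorem rep_mono {p : ℕ} {K : Type} [Field K] {A : ValuationSubring K} {z : A} {w : K}
    {N P : (ResidueField A)[X]} {μ μ' : ℕ} (h : Rep p A z w N P μ) (hμ : μ ≤ μ') :
    Rep p A z w N P μ' := by
  obtain ⟨e, F, G, x, y, h1, h2, h3, h4, h5, h6, h7⟩ := h
  exact ⟨e, F, G, x, y, h1, h2, h3, h4, h5, h6.trans hμ, h7⟩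

/-- a number in a given class -/
theorem exists_class {ι : Type} [Fintype ι] [DecidableEq ι] {q : ι → ℕ}
    [hq : ∀ i, Fact (q i).Prime] {p m : ℕ} (hp : p.Prime) (hpm : ¬ p ∣ m)
    (hinj : Function.Injective q) (hprod : ∏ i, q i = m) (b : Pt q) (hb : ∀ i, b i ≠ 0) :
    ∃ k : ℕ, k.Coprime (p * m) ∧ k ≡ 1 [MOD p] ∧ ∀ i, ((k : ℕ) : ZMod (q i)) = b i := by
  have hcop : Pairwise (Function.onFun Nat.Coprime q) := by
    intro i j hij
    show (q i).Coprime (q j)
    rw [Nat.coprime_primes (hq i).out (hq j).out]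
    exact fun h => hij (hinj h)
  have hne : NeZero (∏ i, q i) := ⟨Finset.prod_ne_zero_iff.2 fun i _ => (hq i).out.ne_zero⟩
  let e := ZMod.prodEquivPi q hcop
  obtain ⟨k0, hk0⟩ : ∃ k0 : ℕ, ∀ i, ((k0 : ℕ) : ZMod (q i)) = b i := by
    refine ⟨(e.symm b).val, fun i => ?_⟩
    have h1 : e ((e.symm b).val : ZMod (∏ i, q i)) = b := by
      rw [ZMod.natCast_val, ZMod.cast_id', id]
      exact e.apply_symm_apply b
    rw [map_natCast] at h1
    have h2 := congrFun h1 i
    rw [Pi.natCast_apply] at h2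
    exact h2
  have hpm' : p.Coprime m := (Nat.Prime.coprime_iff_not_dvd hp).2 hpm
  obtain ⟨k, k1, k2⟩ := Nat.chineseRemainder hpm' 1 k0
  have hk : ∀ i, ((k : ℕ) : ZMod (q i)) = b i := by
    intro i
    rw [← hk0 i]
    refine (ZMod.natCast_eq_natCast_iff _ _ _).2 (k2.of_dvd ?_)
    rw [← hprod]
    exact Finset.dvd_prod_of_mem q (Finset.mem_univ i)
  refine ⟨k, ?_, k1, hk⟩
  refine Nat.Coprime.mul_right ?_ ?_
  · have := k1.gcd_eq
    rw [Nat.Coprime, this]
    exact Nat.gcd_one_left p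
  · rw [← hprod]
    refine Nat.Coprime.prod_right fun i _ => ?_
    have h1 : IsUnit ((k : ℕ) : ZMod (q i)) := by
      rw [hk i]
      exact isUnit_iff_ne_zero.2 (hb i)
    exact (ZMod.isUnit_iff_coprime k (q i)).1 h1

theorem ari (hRbb : RbbStmt) (hWrg : WrgStmt) (hRpv : RpvStmt) : AriStmt := by
  intro ι _ _ q hq p m g h K _ _ _ A z α hpA hz hS T hT hall b s hb hbs J hG t ht
  have F := hS.F
  have hp := F.hp
  have hpm := F.ndvd
  have hzK : IsPrimitiveRoot (z : K) (p * m) :=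
    hz.map_of_injective (f := A.subtype) Subtype.val_injective
  set u : ℕ → K := fun k => uu g ((z : K) ^ k) with hu
  have hu0 : ∀ k : ℕ, k.Coprime (p * m) → u k ≠ 0 := by
    intro k hk
    obtain ⟨a1, a2, -⟩ := abs (p * m) g h F.F K ((z : K) ^ k) (hzK.pow_of_coprime k hk)
    exact div_ne_zero a2 a1
  -- the representations at the vertices
  have hV : Vx (fun v => ∀ k D : ℕ, k.Coprime (p * m) → k ≡ D [MOD p] →
      (∀ i, ((k : ℕ) : ZMod (q i)) = v i) →
      Rep p A z (u k) (C (D : ResidueField A) * expand _ D (Ax m g h (ev α v)))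
        (expand _ D (Bx m (ev α v))) J) T b s := by
    refine vx_mono (fun v hv => ?_) T b s hG
    intro k D hk hD hkv
    have h1 := hRbb p m g h F K A z hpA hz k D hk hD
    have h2 : residue A z ^ k = ev α v := by
      rw [hS.evk k]
      congr 1
      funext i
      exact hkv i
    rw [h2] at h1
    exact rep_mono h1 hv
  obtain ⟨T', hT'1, hT'2, hT'3, hT'4⟩ := hRpv ι q p m hp hpm hS.inj hS.prod K A z u
    (fun v => Ax m g h (ev α v)) (fun v => Bx m (ev α v)) J hpA hu0 T hT b s hb hbs hV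
  obtain ⟨k, hk1, hk2, hk3⟩ := exists_class hp hpm hS.inj hS.prod b hb
  have hpm' : p.Coprime m := (Nat.Prime.coprime_iff_not_dvd hp).2 hpm
  obtain ⟨σ, hσ1, hσ2⟩ := Nat.chineseRemainder hpm' t 1
  have htp : t.Coprime p := ((Nat.Prime.coprime_iff_not_dvd hp).2 ht).symm
  have hσ : σ.Coprime (p * m) := by
    refine Nat.Coprime.mul_right ?_ ?_
    · have := hσ1.gcd_eq
      rw [Nat.Coprime, this]
      exact htp
    · have := hσ2.gcd_eq
      rw [Nat.Coprime, this]
      exact Nat.gcd_one_left m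
  have hσk : (σ * k).Coprime (p * m) := Nat.Coprime.mul_left hσ hk1
  have r1 := hT'4 (σ * k) t hσk (by
    have := hσ1.mul hk2
    rwa [mul_one] at this) (by
    intro i
    have h5 : ((σ : ℕ) : ZMod (q i)) = 1 := by
      have := (ZMod.natCast_eq_natCast_iff _ _ (q i)).2 (hσ2.of_dvd (by
        rw [← hS.prod]
        exact Finset.dvd_prod_of_mem q (Finset.mem_univ i)))
      rw [this, Nat.cast_one]
    rw [Nat.cast_mul, h5, one_mul, hk3])
  have r2 := hT'4 k 1 hk1 hk2 hk3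
  have hWne : WW u T' k ≠ 0 :=
    WW_ne_zero29 u (p * m) hu0 T' (fun y hy => (hT'2 y hy).1) k hk1
  have r3 := rpc p K A z _ _ _ _ _ _ _ _ hp.ne_zero hWne r1 r2
  -- the root of unity
  obtain ⟨ε, i, hε, hw⟩ := opr (p * m) g h F.F K (z : K) ((σ, t) :: T') hzK (by
    intro x hx
    rcases List.mem_cons.1 hx with rfl | hx
    · exact hσ
    · exact (hT'2 x hx).1) (by
    intro l hl hln
    by_cases hlp : l = p
    · subst hlp
      refine ⟨(σ, t), List.mem_cons_self, Or.inl ?_⟩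
      rw [Nat.mul_div_cancel_left _ hp.pos]
      exact hσ2
    · have h6 : l ∣ m := by
        rcases (Nat.Prime.dvd_mul hl).1 hln with h7 | h7
        · exact absurd ((Nat.prime_dvd_prime_iff_eq hl hp).1 h7) hlp
        · exact h7
      rw [← hS.prod] at h6
      obtain ⟨j, -, hj⟩ := (hl.prime.dvd_finsetProd_iff q).1 h6
      have h7 : l = q j := (Nat.prime_dvd_prime_iff_eq hl (hq j).out).1 hj
      obtain ⟨⟨j', c⟩, hjc, hj'⟩ := List.mem_map.1 (hall j)
      have hj'' : j' = j := hj'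
      subst hj''
      obtain ⟨x, hx1, hx2⟩ := hT'3 j' c hjc
      refine ⟨x, List.mem_cons_of_mem _ hx1, ?_⟩
      rw [h7]
      exact hx2) k hk1
  have hw' : WW u T' (σ * k) / WW u T' k = (ε : K) * (z : K) ^ i := hw
  obtain ⟨c, hc⟩ := hWrg p m hp hpm (by have := F.hm; omega) K A z _ _ _ _ ε i hpA hz r3 hε hw'
  refine ⟨c, ?_⟩
  have e1 : 2 ^ T.length * J + 2 ^ T.length * J = 2 ^ (T.length + 1) * J := by
    rw [pow_succ]
    ring
  rw [e1] at hc
  simp only [Nat.cast_one, map_one, one_mul, expand_one] at hc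
  exact hc

end Pool.Agent.CYE.H21
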