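import Pool.Agent.Helper21_CYE.Res
import Pool.Agent.CYE.Old

/-! # MP_734b60_nt: row DEG of the squad CYE -/

set_option autoImplicit false

open Polynomial IsLocalRing NumberField

namespace Pool.Agent.CYE.H21

open Pool.Agent.CYD

/-- DEG: a proper factor of the derivative of the cyclotomic polynomial of odd squarefree order `n`
has degree at least `φ(n) / (6 log₂ n)`. -/
theorem deg : DegStmt := deg_mod dvd bas coe rev exa abs

/-- The same, spelled out. -/
theorem deg' : ∀ (n : ℕ) (g h : ℤ[X]), Fg n g h → 2 ^ n.totient ≤ n ^ (6 * g.natDegree) := deg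

end Pool.Agent.CYE.H21
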