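import Pool.Agent.Helper21_CYE.Deg

/-! # MP_734b60_nt: the degrees of the factors over the rational numbers -/

set_option autoImplicit false

open Polynomial

namespace Pool.Agent.CYE.H21

open Pool.Agent.CYD

/-- a primitive integral multiple -/
theorem exists_prim (f : ℚ[X]) (hf : f ≠ 0) : ∃ (g : ℤ[X]) (c : ℚ), g.IsPrimitive ∧ c ≠ 0 ∧
    g.map (Int.castRingHom ℚ) = C c * f := by
  obtain ⟨b, hbm, hb⟩ := IsLocalization.integerNormalization_spec (nonZeroDivisors ℤ) f
  set G := IsLocalization.integerNormalization (nonZeroDivisors ℤ) f with hG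
  have hb0 : (b : ℚ) ≠ 0 := by
    have := nonZeroDivisors.ne_zero hbm
    exact_mod_cast this
  have hG0 : G ≠ 0 := by
    intro h0
    rw [h0, Polynomial.map_zero] at hb
    have h1 : b • f = 0 := hb.symm
    rw [zsmul_eq_mul] at h1
    rcases mul_eq_zero.1 h1 with h2 | h2
    · have h3 : (b : ℚ[X]) = C (b : ℚ) := by simp
      rw [h3, C_eq_zero] at h2
      exact hb0 h2
    · exact hf h2
  have hc0 : (G.content : ℚ) ≠ 0 := by
    have : G.content ≠ 0 := by
      rw [Ne, content_eq_zero_iff]
      exact hG0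
    exact_mod_cast this
  refine ⟨G.primPart, (b : ℚ) / G.content, G.isPrimitive_primPart, div_ne_zero hb0 hc0, ?_⟩
  have h1 : G.map (Int.castRingHom ℚ) = C (b : ℚ) * f := by
    have h2 : G.map (algebraMap ℤ ℚ) = b • f := hb
    rw [algebraMap_int_eq] at h2
    rw [h2, zsmul_eq_mul]
    simp
  have h2 := congrArg (Polynomial.map (Int.castRingHom ℚ)) G.eq_C_content_mul_primPart
  rw [h1, Polynomial.map_mul, map_C] at h2
  have h3 : (C (G.content : ℚ) : ℚ[X]) ≠ 0 := by
    rw [Ne, C_eq_zero]
    exact hc0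
  apply mul_left_cancel₀ h3
  rw [← mul_assoc, ← C_mul, mul_div_cancel₀ _ hc0]
  exact h2.symm

theorem numeric {n : ℕ} (hn : 3 ≤ n) : 2 ^ n.totient ≤ n ^ (6 * (n.totient - 1)) := by
  have h1 : 2 ≤ n.totient := by
    have := Nat.totient_even (n := n) (by omega)
    have ht : 0 < n.totient := Nat.totient_pos.mpr (by omega)
    obtain ⟨k, hk⟩ := this
    omega
  calc 2 ^ n.totient ≤ 2 ^ (6 * (n.totient - 1)) := Nat.pow_le_pow_right (by norm_num) (by omega)
    _ ≤ n ^ (6 * (n.totient - 1)) := Nat.pow_le_pow_left (by omega) _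

theorem odd_case {n : ℕ} (hn : 3 ≤ n) (ho : Odd n) (hs : Squarefree n) (f : ℚ[X])
    (hf : f ∣ derivative (cyclotomic n ℚ)) (hd : f.natDegree ≠ 0) :
    2 ^ n.totient ≤ n ^ (6 * f.natDegree) := by
  have hf0 : f ≠ 0 := by
    rintro rfl
    simp at hd
  obtain ⟨g, c, hg, hc, hgf⟩ := exists_prim f hf0
  have hdeg : g.natDegree = f.natDegree := by
    have h1 := congrArg natDegree hgf
    rw [natDegree_map_eq_of_injective (Int.castRingHom ℚ).injective_int, natDegree_C_mul hc] at h1
    exact h1
  have hdvd : g ∣ derivative (cyclotomic n ℤ) := by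
    rw [IsPrimitive.Int.dvd_iff_map_cast_dvd_map_cast _ _ hg, hgf, ← derivative_map,
      map_cyclotomic]
    have hu : IsUnit (C c : ℚ[X]) := isUnit_C.2 (isUnit_iff_ne_zero.2 hc)
    exact (hu.mul_left_dvd).2 hf
  obtain ⟨h, hh⟩ := hdvd
  have hV := natDegree_V hn
  by_cases hh0 : h.natDegree = 0
  · have hne : derivative (cyclotomic n ℤ) ≠ 0 := by
      intro h0
      rw [h0] at hV
      have h1 : 2 ≤ n.totient := by
        have := Nat.totient_even (n := n) (by omega)
        have ht : 0 < n.totient := Nat.totient_pos.mpr (by omega)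
        obtain ⟨k, hk⟩ := this
        omega
      simp at hV
      omega
    have hg0 : g ≠ 0 := by
      rintro rfl
      rw [zero_mul] at hh
      exact hne hh
    have hh1 : h ≠ 0 := by
      rintro rfl
      rw [mul_zero] at hh
      exact hne hh
    have h2 := natDegree_mul hg0 hh1
    rw [← hh, hh0] at h2
    have h3 : f.natDegree = n.totient - 1 := by omega
    rw [h3]
    exact numeric hn
  · rw [← hdeg]
    refine deg' n g h ⟨hn, ho, hs, hh.symm, ?_, ?_⟩
    · rw [hdeg]
      omega
    · omega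

/-- The degrees of the factors, every squarefree order. -/
theorem factor_degrees {n : ℕ} (hn : 3 ≤ n) (hs : Squarefree n) (f : ℚ[X])
    (hf : f ∣ derivative (cyclotomic n ℚ)) (hd : f.natDegree ≠ 0) :
    2 ^ n.totient ≤ n ^ (6 * f.natDegree) := by
  rcases Nat.even_or_odd n with he | ho
  · obtain ⟨m, hm⟩ := he.two_dvd
    subst hm
    have hcop : Nat.Coprime 2 m := Nat.coprime_of_squarefree_mul hs
    have hodd : Odd m := Nat.coprime_two_left.1 hcop
    have hm3 : 3 ≤ m := by
      obtain ⟨k, rfl⟩ := hodd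
      omega
    have hsm : Squarefree m := hs.squarefree_of_dvd (Dvd.intro_left 2 rfl)
    obtain ⟨z, hz⟩ : ∃ z : ℂ, IsPrimitiveRoot z m :=
      ⟨_, Complex.isPrimitiveRoot_exp m (by omega)⟩
    have hz' : IsPrimitiveRoot (-z) (2 * m) := by
      have h1 : IsPrimitiveRoot (-1 : ℂ) 2 := IsPrimitiveRoot.neg_one 0 (by norm_num)
      have h3 : orderOf ((-1 : ℂ) * z) = 2 * m := by
        rw [(Commute.all (-1 : ℂ) z).orderOf_mul_eq_mul_orderOf_of_coprime]
        · rw [← h1.eq_orderOf, ← hz.eq_orderOf]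
        · rw [← h1.eq_orderOf, ← hz.eq_orderOf]
          exact Nat.coprime_two_left.mpr hodd
      have h4 := IsPrimitiveRoot.orderOf ((-1 : ℂ) * z)
      rw [h3] at h4
      simpa using h4
    have e1 : cyclotomic m ℚ = minpoly ℚ z := cyclotomic_eq_minpoly_rat hz (by omega)
    have e2 : cyclotomic (2 * m) ℚ = minpoly ℚ (-z) := cyclotomic_eq_minpoly_rat hz' (by omega)
    have e3 : derivative (cyclotomic (2 * m) ℚ) =
        (-1) ^ ((cyclotomic m ℚ).natDegree + 1) *
          algEquivAevalNegX (derivative (cyclotomic m ℚ)) := by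
      rw [e2, minpoly.neg, ← e1]
      have e4 : algEquivAevalNegX (derivative (cyclotomic m ℚ)) =
        (derivative (cyclotomic m ℚ)).comp (-X) := rfl
      have e5 : ((-1 : ℚ[X]) ^ (cyclotomic m ℚ).natDegree) =
        C ((-1) ^ (cyclotomic m ℚ).natDegree) := by simp
      rw [e4, pow_succ, e5, derivative_C_mul, derivative_comp]
      simp
    rw [e3] at hf
    have hu : IsUnit ((-1 : ℚ[X]) ^ ((cyclotomic m ℚ).natDegree + 1)) := isUnit_one.neg.pow _
    have hf1 : f ∣ algEquivAevalNegX (derivative (cyclotomic m ℚ)) := (hu.dvd_mul_left).1 hf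
    have hf2 : algEquivAevalNegX f ∣ derivative (cyclotomic m ℚ) := by
      have h1 := map_dvd (algEquivAevalNegX (R := ℚ)) hf1
      have h2 : ∀ P : ℚ[X], algEquivAevalNegX (algEquivAevalNegX P) = P := by
        intro P
        show (P.comp (-X)).comp (-X) = P
        rw [comp_assoc]
        simp
      rwa [h2] at h1
    have hdeg : (algEquivAevalNegX f).natDegree = f.natDegree := by
      show (f.comp (-X)).natDegree = f.natDegree
      rw [natDegree_comp, natDegree_neg, natDegree_X, mul_one]
    have h1 := odd_case hm3 hodd hsm (algEquivAevalNegX f) hf2 (by rw [hdeg]; exact hd)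
    rw [hdeg] at h1
    have h2 : (2 * m).totient = m.totient := by
      rw [Nat.totient_mul hcop, Nat.totient_two, one_mul]
    rw [h2]
    exact h1.trans (Nat.pow_le_pow_left (by omega) _)
  · exact odd_case hn ho hs f hf hd

end Pool.Agent.CYE.H21
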