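import Pool.Agent.Helper21_CYE.Nru
import Pool.Agent.Helper70_CYD.Ngr

/-! # MP_734b60_nt: a lower bound for the degrees of the factors

`2 ^ φ(n) ≤ n ^ (6 deg g)` for every proper factor `g` of the derivative of the cyclotomic
polynomial of squarefree order `n`. -/

set_option autoImplicit false

open Polynomial IsLocalRing NumberField

namespace Pool.Agent.CYE.H21

open Pool.Agent.CYD

theorem expand_two (f : ℤ[X]) : ∃ A : ℤ[X], expand ℤ 2 f = f ^ 2 + C 2 * A := by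
  have h1 : (expand ℤ 2 f - f ^ 2).map (Int.castRingHom (ZMod 2)) = 0 := by
    have : Fact (Nat.Prime 2) := ⟨Nat.prime_two⟩
    rw [Polynomial.map_sub, map_expand, Polynomial.map_pow, ZMod.expand_card, sub_self]
  have h2 : C (2 : ℤ) ∣ expand ℤ 2 f - f ^ 2 := by
    rw [C_dvd_iff_dvd_coeff]
    intro i
    have h3 := congrArg (fun t : (ZMod 2)[X] => t.coeff i) h1
    simp only [coeff_map, coeff_zero, eq_intCast] at h3
    have h4 := (ZMod.intCast_zmod_eq_zero_iff_dvd _ 2).1 h3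
    exact_mod_cast h4
  obtain ⟨A, hA⟩ := h2
  exact ⟨A, by rw [← hA]; ring⟩

/-- the auxiliary polynomial is divisible by four -/
theorem four_dvd (a b : ℤ[X]) : ∃ R : ℤ[X],
    expand ℤ 2 a ^ 2 * b ^ 4 - a ^ 4 * expand ℤ 2 b ^ 2 = C 4 * R := by
  obtain ⟨A, hA⟩ := expand_two a
  obtain ⟨B, hB⟩ := expand_two b
  refine ⟨b ^ 4 * (A * a ^ 2 + A ^ 2) - a ^ 4 * (B * b ^ 2 + B ^ 2), ?_⟩
  rw [hA, hB]
  have e : (C (4 : ℤ) : ℤ[X]) = C 2 * C 2 := by rw [← C_mul]; norm_num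
  rw [e]
  have e2 : (C (2 : ℤ) : ℤ[X]) = 2 := by simp
  rw [e2]
  ring

theorem integral_aeval {K : Type} [Field K] {n : ℕ} (hn : 0 < n) {z : K}
    (hz : IsPrimitiveRoot z n) (f : ℤ[X]) : IsIntegral ℤ (aeval z f) := by
  have h1 : IsIntegral ℤ z := hz.isIntegral hn
  exact IsIntegral.of_mem_of_fg _ (h1.fg_adjoin_singleton) _ (aeval_mem_adjoin_singleton ℤ z)

/-- the automorphisms of a cyclotomic field -/
theorem exists_aut {K : Type} [Field K] [NumberField K] {n : ℕ} [NeZero n]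
    [IsCyclotomicExtension {n} ℚ K] {z z' : K} (hz : IsPrimitiveRoot z n)
    (hz' : IsPrimitiveRoot z' n) : ∃ σ : K ≃ₐ[ℚ] K, σ z = z' := by
  have hn : 0 < n := NeZero.pos n
  have hirr : Irreducible (cyclotomic n ℚ) := cyclotomic.irreducible_rat hn
  have hmin : minpoly ℚ (hz.powerBasis ℚ).gen = minpoly ℚ (hz'.powerBasis ℚ).gen := by
    rw [hz.powerBasis_gen ℚ, hz'.powerBasis_gen ℚ,
      ← hz.minpoly_eq_cyclotomic_of_irreducible hirr,
      ← hz'.minpoly_eq_cyclotomic_of_irreducible hirr]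
  let σ : K ≃ₐ[ℚ] K := (hz.powerBasis ℚ).equivOfMinpoly (hz'.powerBasis ℚ) hmin
  refine ⟨σ, ?_⟩
  have := (hz.powerBasis ℚ).equivOfMinpoly_gen (hz'.powerBasis ℚ) hmin
  rw [hz.powerBasis_gen ℚ, hz'.powerBasis_gen ℚ] at this
  exact this

theorem norm_conj {K : Type} [Field K] [NumberField K] {n : ℕ} [NeZero n]
    [IsCyclotomicExtension {n} ℚ K] {z z' : K} (hz : IsPrimitiveRoot z n)
    (hz' : IsPrimitiveRoot z' n) (f : ℤ[X]) :
    Algebra.norm ℚ (aeval z' f) = Algebra.norm ℚ (aeval z f) := by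
  obtain ⟨σ, hσ⟩ := exists_aut hz hz'
  have h1 : aeval z' f = σ (aeval z f) := by
    rw [← hσ]
    have := hom_eval₂ f (algebraMap ℤ K) (σ : K →+* K) z
    rw [aeval_def, aeval_def]
    have h2 : (σ : K →+* K).comp (algebraMap ℤ K) = algebraMap ℤ K := RingHom.ext_int _ _
    rw [h2] at this
    exact this.symm
  rw [h1]
  exact Algebra.norm_eq_of_algEquiv σ (aeval z f)

/-- iteration of the relation `u(x^2)^2 = u(x)^4` -/
theorem iter_pow {K : Type} [Field K] {n : ℕ} (hodd : Odd n) (u : K → K)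
    (h : ∀ x : K, IsPrimitiveRoot x n → u (x ^ 2) ^ 2 = u x ^ 4) (k : ℕ) :
    ∀ x : K, IsPrimitiveRoot x n → u (x ^ 2 ^ k) ^ 2 = u x ^ 2 ^ (k + 1) := by
  induction k with
  | zero =>
    intro x _
    simp
  | succ k ih =>
    intro x hx
    have h2 : Nat.Coprime (2 ^ k) n := Nat.Coprime.pow_left k ((Nat.coprime_two_left).2 hodd)
    have hx2 := hx.pow_of_coprime _ h2
    have e1 : x ^ 2 ^ (k + 1) = (x ^ 2 ^ k) ^ 2 := by rw [← pow_mul, ← pow_succ]
    rw [e1, h _ hx2]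
    have e2 : u (x ^ 2 ^ k) ^ 4 = (u (x ^ 2 ^ k) ^ 2) ^ 2 := by rw [← pow_mul]
    rw [e2, ih x hx, ← pow_mul, ← pow_succ]

/-- The auxiliary number is not zero. -/
theorem aux_ne (hBas : BasStmt) (hCoe : CoeStmt) (hRev : RevStmt) (hExa : ExaStmt)
    (hAbs : AbsStmt) {n : ℕ} {g h : ℤ[X]} (F : Fg n g h) {K : Type} [Field K] [NumberField K]
    [IsCyclotomicExtension {n} ℚ K] {z : K} (hz : IsPrimitiveRoot z n) :
    aeval z (expand ℤ 2 g.reverse ^ 2 * g ^ 4 - g.reverse ^ 4 * expand ℤ 2 g ^ 2) ≠ 0 := by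
  intro h0
  have hn := F.hn
  have hn0 : 0 < n := by omega
  have : NeZero n := ⟨hn0.ne'⟩
  have hrel : ∀ x : K, IsPrimitiveRoot x n → uu g (x ^ 2) ^ 2 = uu g x ^ 4 := by
    intro x hx
    have h1 : minpoly ℤ z ∣ expand ℤ 2 g.reverse ^ 2 * g ^ 4 - g.reverse ^ 4 * expand ℤ 2 g ^ 2 :=
      minpoly.isIntegrallyClosed_dvd (hz.isIntegral hn0) h0
    rw [← cyclotomic_eq_minpoly hz hn0] at h1
    obtain ⟨r, hr⟩ := h1
    have h2 := congrArg (aeval x) hr
    have h3 : aeval x (cyclotomic n ℤ) = 0 := by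
      rw [aeval_eq_eval_map, map_cyclotomic_int]
      exact hx.isRoot_cyclotomic (by omega)
    rw [map_mul, h3, zero_mul] at h2
    simp only [map_sub, map_mul, map_pow, expand_aeval] at h2
    have hx2 : IsPrimitiveRoot (x ^ 2) n :=
      hx.pow_of_coprime 2 ((Nat.coprime_two_left).2 F.ho)
    obtain ⟨a1, -, -⟩ := hAbs n g h F K x hx
    obtain ⟨a2, -, -⟩ := hAbs n g h F K (x ^ 2) hx2
    rw [uu, uu, div_pow, div_pow, div_eq_div_iff (pow_ne_zero _ a2) (pow_ne_zero _ a1)]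
    exact sub_eq_zero.1 h2
  have h1 := iter_pow F.ho (uu g) hrel n.totient z hz
  have h2 : z ^ 2 ^ n.totient = z := by
    have h3 : 2 ^ n.totient ≡ 1 [MOD n] :=
      Nat.ModEq.pow_totient ((Nat.coprime_two_left).2 F.ho)
    rw [pow_eq_pow_mod _ hz.pow_eq_one, h3, ← pow_eq_pow_mod 1 hz.pow_eq_one, pow_one]
  rw [h2] at h1
  obtain ⟨a1, a2, -⟩ := hAbs n g h F K z hz
  have hu0 : uu g z ≠ 0 := div_ne_zero a2 a1
  have h3 : uu g z ^ (2 ^ (n.totient + 1) - 2) = 1 := by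
    have h4 : 2 ≤ 2 ^ (n.totient + 1) := by
      have : 2 ^ 1 ≤ 2 ^ (n.totient + 1) := Nat.pow_le_pow_right (by norm_num) (by omega)
      simpa using this
    apply mul_right_cancel₀ (pow_ne_zero 2 hu0)
    rw [← pow_add, Nat.sub_add_cancel h4, one_mul]
    exact h1.symm
  have hpos : 0 < 2 ^ (n.totient + 1) - 2 := by
    have h5 : 0 < n.totient := Nat.totient_pos.2 hn0
    have : 2 ^ 2 ≤ 2 ^ (n.totient + 1) := Nat.pow_le_pow_right (by norm_num) (by omega)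
    omega
  have h4 : IsOfFinOrder (uu g z) := isOfFinOrder_iff_pow_eq_one.2 ⟨_, hpos, h3⟩
  obtain ⟨r, -, hr⟩ := hz.exists_pow_or_neg_mul_pow_of_isOfFinOrder F.ho h4
  rcases hr with hr | hr
  · exact nru hBas hCoe hRev hExa hAbs F hz (s := 1) (i := r) (Or.inl rfl) (by rw [hr]; simp)
  · exact nru hBas hCoe hRev hExa hAbs F hz (s := -1) (i := r) (Or.inr rfl) (by rw [hr]; simp)

theorem norm_nat {K : Type} [Field K] [NumberField K] (c : ℕ) :
    Algebra.norm ℚ (c : K) = (c : ℚ) ^ Module.finrank ℚ K := by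
  have := Algebra.norm_algebraMap (S := K) (c : ℚ)
  rw [← this]
  simp

/-- The norm of `g(ζ)` is large. -/
theorem two_pow_le_norm (hBas : BasStmt) (hCoe : CoeStmt) (hRev : RevStmt) (hExa : ExaStmt)
    (hAbs : AbsStmt) {n : ℕ} {g h : ℤ[X]} (F : Fg n g h) {K : Type} [Field K] [NumberField K]
    [IsCyclotomicExtension {n} ℚ K] {z : K} (hz : IsPrimitiveRoot z n) :
    (2 : ℝ) ^ n.totient ≤ |((Algebra.norm ℚ (aeval z g) : ℚ) : ℝ)| ^ 6 := by
  have hn := F.hn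
  have hn0 : 0 < n := by omega
  have : NeZero n := ⟨hn0.ne'⟩
  have hfin : Module.finrank ℚ K = n.totient :=
    IsCyclotomicExtension.finrank K (cyclotomic.irreducible_rat hn0)
  have hcard : Fintype.card (K →ₐ[ℚ] ℂ) = n.totient := by
    rw [← hfin]
    exact AlgHom.card ℚ K ℂ
  have hne := aux_ne hBas hCoe hRev hExa hAbs F hz
  obtain ⟨R, hR⟩ := four_dvd g.reverse g
  -- lower bound
  have h1 : (4 : ℝ) ^ n.totient ≤ |((Algebra.norm ℚ (aeval z (expand ℤ 2 g.reverse ^ 2 * g ^ 4 -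
      g.reverse ^ 4 * expand ℤ 2 g ^ 2)) : ℚ) : ℝ)| := by
    have e1 : aeval z (expand ℤ 2 g.reverse ^ 2 * g ^ 4 - g.reverse ^ 4 * expand ℤ 2 g ^ 2) =
        ((4 : ℕ) : K) * aeval z R := by
      rw [hR, map_mul, aeval_C]
      simp
    have hR0 : aeval z R ≠ 0 := by
      intro h0
      rw [e1, h0, mul_zero] at hne
      exact hne rfl
    have h2 := ngr_one_le K (aeval z R) (integral_aeval hn0 hz R) hR0
    rw [e1, map_mul, norm_nat, hfin]
    push_cast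
    rw [abs_mul, abs_of_nonneg (by positivity)]
    have h3 : (1 : ℝ) ≤ |((Algebra.norm ℚ (aeval z R) : ℚ) : ℝ)| := by exact_mod_cast h2
    have h4 : (0 : ℝ) < 4 ^ n.totient := by positivity
    nlinarith
  -- upper bound
  have hz2 : IsPrimitiveRoot (z ^ 2) n := hz.pow_of_coprime 2 ((Nat.coprime_two_left).2 F.ho)
  have hconj := norm_conj hz hz2 g
  have habs : ∀ σ : K →ₐ[ℚ] ℂ, ∀ x : K, IsPrimitiveRoot x n →
      ‖σ (aeval x g.reverse)‖ = ‖σ (aeval x g)‖ := by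
    intro σ x hx
    obtain ⟨a1, -, a3⟩ := hAbs n g h F K x hx
    have h4 := a3 σ.toRingHom
    have h5 : ‖σ (uu g x)‖ = 1 := h4
    rw [uu, map_div₀, norm_div, div_eq_one_iff_eq] at h5
    · exact h5
    · rw [norm_ne_zero_iff]
      exact (map_ne_zero σ).2 a1
  have h2 : |((Algebra.norm ℚ (aeval z (expand ℤ 2 g.reverse ^ 2 * g ^ 4 -
      g.reverse ^ 4 * expand ℤ 2 g ^ 2)) : ℚ) : ℝ)| ≤ 2 ^ n.totient *
      (|((Algebra.norm ℚ (aeval z g) : ℚ) : ℝ)| ^ 4 *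
        |((Algebra.norm ℚ (aeval (z ^ 2) g) : ℚ) : ℝ)| ^ 2) := by
    rw [ngr_norm_prod, ngr_norm_prod, ngr_norm_prod, ← hcard, ← Finset.card_univ,
      ← Finset.prod_const, ← Finset.prod_pow, ← Finset.prod_pow, ← Finset.prod_mul_distrib,
      ← Finset.prod_mul_distrib]
    refine Finset.prod_le_prod (fun _ _ => norm_nonneg _) (fun σ _ => ?_)
    simp only [map_sub, map_mul, map_pow, expand_aeval]
    refine (norm_sub_le _ _).trans ?_
    rw [norm_mul, norm_mul, norm_pow, norm_pow, norm_pow, norm_pow, habs σ z hz,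
      habs σ (z ^ 2) hz2]
    apply le_of_eq
    ring
  rw [hconj] at h2
  have h3 : (4 : ℝ) ^ n.totient ≤ 2 ^ n.totient *
      |((Algebra.norm ℚ (aeval z g) : ℚ) : ℝ)| ^ 6 := by
    refine (h1.trans h2).trans (le_of_eq ?_)
    ring
  have h4 : (4 : ℝ) ^ n.totient = 2 ^ n.totient * 2 ^ n.totient := by
    rw [← mul_pow]
    norm_num
  rw [h4] at h3
  have h5 : (0 : ℝ) < 2 ^ n.totient := by positivity
  exact le_of_mul_le_mul_left h3 h5

end Pool.Agent.CYE.H21
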