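import Pool.Agent.Helper85_CYD.StG
import Pool.Agent.Helper76_CYD.Abs

/-! # MP_734b60_nt: the quotient `g*(ζ) / g(ζ)` is not a root of unity

Lagrange interpolation gives the trace of the quotient, its value is a Ramanujan sum, and the
leading coefficients of the two factors cannot both be even. -/

set_option autoImplicit false

open Polynomial IsLocalRing

namespace Pool.Agent.CYE.H21

open Pool.Agent.CYD

theorem aeval_eq_eval_map {K : Type} [Field K] (f : ℤ[X]) (x : K) :
    aeval x f = (f.map (Int.castRingHom K)).eval x := by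
  rw [aeval_def, algebraMap_int_eq, eval₂_eq_eval_map]

/-- Lagrange interpolation at the primitive roots of unity -/
theorem lag {K : Type} [Field K] [CharZero K] {n : ℕ} {z : K}
    (hz : IsPrimitiveRoot z n) (P : ℤ[X]) (hP : P.natDegree < n.totient) :
    ∑ x ∈ primitiveRoots n K, aeval x P / aeval x (derivative (cyclotomic n ℤ)) =
      (P.coeff (n.totient - 1) : K) := by
  classical
  have hcard : (primitiveRoots n K).card = n.totient := hz.card_primitiveRoots
  have hdeg : (P.map (Int.castRingHom K)).degree < (primitiveRoots n K).card := by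
    rw [hcard]
    refine lt_of_le_of_lt degree_le_natDegree ?_
    exact_mod_cast lt_of_le_of_lt natDegree_map_le hP
  have h1 := Lagrange.coeff_eq_sum (s := primitiveRoots n K) (v := fun x => x)
    Function.injective_id.injOn hdeg
  rw [hcard, coeff_map] at h1
  have h2 : (P.coeff (n.totient - 1) : K) = Int.castRingHom K (P.coeff (n.totient - 1)) := rfl
  rw [h2, h1]
  refine Finset.sum_congr rfl fun x hx => ?_
  have h3 : aeval x (derivative (cyclotomic n ℤ)) = ∏ j ∈ (primitiveRoots n K).erase x, (x - j) := by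
    have h4 : (cyclotomic n K) = Lagrange.nodal (primitiveRoots n K) (fun x => x) := by
      rw [cyclotomic_eq_prod_X_sub_primitiveRoots hz, Lagrange.nodal]
    rw [aeval_eq_eval_map, ← derivative_map, map_cyclotomic_int, h4]
    have h5 := Lagrange.eval_nodal_derivative_eval_node_eq (s := primitiveRoots n K)
      (v := fun x : K => x) hx
    rw [h5, Lagrange.eval_nodal]
  rw [h3, aeval_eq_eval_map]

/-- the pairing -/
theorem pairing {n q i : ℕ} (hodd : Odd n) (hs : Squarefree n) (hq : q.Prime)
    (hqn : q ∣ n) (hqi : q ∣ i) :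
    ∃ t : ℕ, t.Coprime n ∧ t * t ≡ 1 [MOD n] ∧ t * i ≡ i [MOD n] ∧ ¬ t ≡ 1 [MOD n] := by
  obtain ⟨m, rfl⟩ := hqn
  have hcop : q.Coprime m := Nat.coprime_of_squarefree_mul hs
  obtain ⟨t, ht1, ht2⟩ := Nat.chineseRemainder hcop (q - 1) 1
  have hq1 : 1 ≤ q := hq.one_lt.le
  have e1 : t * t ≡ 1 [MOD q] := by
    have h1 : t * t ≡ (q - 1) * (q - 1) [MOD q] := ht1.mul ht1
    refine h1.trans ?_
    obtain ⟨r, rfl⟩ : ∃ r, q = r + 1 := ⟨q - 1, by omega⟩
    have h2 : (r + 1 - 1) * (r + 1 - 1) + 2 * (r + 1) * 1 = (r + 1) * (r + 1) + 1 := by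
      rw [Nat.add_sub_cancel]
      ring
    have h3 : (r + 1 - 1) * (r + 1 - 1) ≡ 1 [MOD r + 1] := by
      have h4 : (r + 1 - 1) * (r + 1 - 1) + 2 * (r + 1) * 1 ≡ 0 + 1 [MOD r + 1] := by
        rw [h2]
        exact Nat.ModEq.add_right 1 ((Nat.modEq_zero_iff_dvd).2 (Dvd.intro _ rfl))
      have h5 : 2 * (r + 1) * 1 ≡ 0 [MOD r + 1] :=
        (Nat.modEq_zero_iff_dvd).2 ⟨2, by ring⟩
      have h6 := Nat.ModEq.add_left ((r + 1 - 1) * (r + 1 - 1)) h5
      rw [add_zero] at h6
      rw [zero_add] at h4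
      exact h6.symm.trans h4
    exact h3
  have e2 : t * t ≡ 1 [MOD m] := by
    have := ht2.mul ht2
    simpa using this
  have e3 : t * t ≡ 1 [MOD q * m] := (Nat.modEq_and_modEq_iff_modEq_mul hcop).1 ⟨e1, e2⟩
  refine ⟨t, ?_, e3, ?_, ?_⟩
  · have h1 : (t * t).Coprime (q * m) := by
      have := e3.gcd_eq
      rw [Nat.gcd_one_left] at this
      exact this
    exact Nat.Coprime.coprime_mul_right h1
  · refine (Nat.modEq_and_modEq_iff_modEq_mul hcop).1 ⟨?_, ?_⟩
    · have h1 : i ≡ 0 [MOD q] := (Nat.modEq_zero_iff_dvd).2 hqi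
      have h2 : t * i ≡ t * 0 [MOD q] := Nat.ModEq.mul_left t h1
      rw [mul_zero] at h2
      exact h2.trans h1.symm
    · have := Nat.ModEq.mul_right i ht2
      rwa [one_mul] at this
  · intro h
    have h1 : t ≡ 1 [MOD q] := h.of_mul_right m
    have h2 : q - 1 ≡ 1 [MOD q] := ht1.symm.trans h1
    have h3 : q - 1 + 1 ≡ 1 + 1 [MOD q] := h2.add_right 1
    rw [Nat.sub_add_cancel hq1] at h3
    have h4 : q ∣ 2 := by
      have h5 : (1 + 1 : ℕ) ≡ 0 [MOD q] :=
        h3.symm.trans ((Nat.modEq_zero_iff_dvd).2 dvd_rfl)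
      exact (Nat.modEq_zero_iff_dvd).1 h5
    have h6 : q = 2 := (Nat.prime_dvd_prime_iff_eq hq Nat.prime_two).1 h4
    subst h6
    have : Even (2 * m) := even_two_mul m
    exact (Nat.not_even_iff_odd.2 hodd) this

theorem pow_modEq {K : Type} [Field K] {n : ℕ} (hn : 0 < n) {x : K} (hx : IsPrimitiveRoot x n)
    {a b : ℕ} (h : x ^ a = x ^ b) : a ≡ b [MOD n] := by
  rw [pow_eq_pow_mod a hx.pow_eq_one, pow_eq_pow_mod b hx.pow_eq_one] at h
  exact hx.pow_inj (Nat.mod_lt _ hn) (Nat.mod_lt _ hn) h

/-- Ramanujan sums: the even case -/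
theorem even_sum (hExa : ExaStmt) {K : Type} [Field K] [CharZero K] {n q i : ℕ}
    (hodd : Odd n) (hs : Squarefree n) (hq : q.Prime) (hqn : q ∣ n) (hqi : q ∣ i) (c : ℤ)
    (hc : ∑ x ∈ primitiveRoots n K, x ^ i = (c : K)) : Even c := by
  classical
  have hn : 0 < n := hodd.pos
  obtain ⟨t, ht1, ht2, ht3, ht4⟩ := pairing hodd hs hq hqn hqi
  obtain ⟨A, hA⟩ := hExa K 2 Nat.prime_two
  have hmem : ∀ x : K, x ^ n = 1 → x ∈ A := by
    intro x hx
    rcases A.mem_or_inv_mem x with h1 | h1
    · exact h1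
    · have hx0 : x ≠ 0 := by
        rintro rfl
        rw [zero_pow hn.ne'] at hx
        exact zero_ne_one hx
      have h2 : x = x⁻¹ ^ (n - 1) := by
        rw [inv_pow]
        refine eq_inv_of_mul_eq_one_left ?_
        rw [← pow_succ']
        rw [Nat.sub_add_cancel hn]
        exact hx
      rw [h2]
      exact pow_mem h1 _
  have hF : ∀ x ∈ primitiveRoots n K, x ∈ A := fun x hx =>
    hmem x ((mem_primitiveRoots hn).1 hx).pow_eq_one
  -- the sum in the residue field
  have h2 : (2 : ResidueField A) = 0 := by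
    have h3 : residue A ((2 : ℕ) : A) = 0 := (residue_eq_zero_iff _).2 hA
    rw [map_natCast] at h3
    exact_mod_cast h3
  have hsum : ∑ x ∈ (primitiveRoots n K).attach, residue A (⟨x.1, hF x.1 x.2⟩ ^ i) = 0 := by
    refine Finset.sum_involution (fun x _ => ⟨x.1 ^ t, ?_⟩) ?_ ?_ ?_ ?_
    · exact (mem_primitiveRoots hn).2 (((mem_primitiveRoots hn).1 x.2).pow_of_coprime t ht1)
    · rintro ⟨x, hx⟩ -
      have hx1 := (mem_primitiveRoots hn).1 hx
      have e : (⟨x ^ t, hF _ ((mem_primitiveRoots hn).2 (hx1.pow_of_coprime t ht1))⟩ : A) ^ i =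
          (⟨x, hF x hx⟩ : A) ^ i := by
        apply Subtype.ext
        show (x ^ t) ^ i = x ^ i
        rw [← pow_mul]
        have := pow_eq_pow_mod (t * i) hx1.pow_eq_one
        rw [this, ht3, ← pow_eq_pow_mod i hx1.pow_eq_one]
      show residue A _ + residue A _ = 0
      rw [e, ← two_mul, h2, zero_mul]
    · rintro ⟨x, hx⟩ - - heq
      have hx1 := (mem_primitiveRoots hn).1 hx
      have h3 : x ^ t = x := congrArg Subtype.val heq
      have h4 : x ^ t = x ^ 1 := by rw [h3, pow_one]
      apply ht4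
      exact pow_modEq hn hx1 h4
    · rintro ⟨x, hx⟩ -
      exact Finset.mem_attach _ _
    · rintro ⟨x, hx⟩ -
      have hx1 := (mem_primitiveRoots hn).1 hx
      apply Subtype.ext
      show (x ^ t) ^ t = x
      rw [← pow_mul]
      have := pow_eq_pow_mod (t * t) hx1.pow_eq_one
      rw [this, ht2, ← pow_eq_pow_mod 1 hx1.pow_eq_one, pow_one]
  rw [← map_sum] at hsum
  have h3 : (∑ x ∈ (primitiveRoots n K).attach, (⟨x.1, hF x.1 x.2⟩ : A) ^ i) = (c : A) := by
    apply Subtype.ext
    have e1 : (((c : A) : A) : K) = (c : K) := by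
      simp
    rw [e1, ← hc]
    have e2 : ((∑ x ∈ (primitiveRoots n K).attach, (⟨x.1, hF x.1 x.2⟩ : A) ^ i : A) : K) =
        ∑ x ∈ (primitiveRoots n K).attach, x.1 ^ i := by
      simp
    rw [e2]
    exact Finset.sum_attach (primitiveRoots n K) (fun x => x ^ i)
  rw [h3, map_intCast] at hsum
  by_contra hodd2
  rw [Int.not_even_iff_odd] at hodd2
  obtain ⟨k, rfl⟩ := hodd2
  push_cast at hsum
  rw [h2, zero_mul, zero_add] at hsum
  exact one_ne_zero hsum

/-- Ramanujan sums: the coprime case -/
theorem sum_coprime {K : Type} [Field K] {n i : ℕ} (hn : 1 < n) (h : i.Coprime n) :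
    ∑ x ∈ primitiveRoots n K, x ^ i = ∑ x ∈ primitiveRoots n K, x := by
  classical
  have hn0 : 0 < n := by omega
  obtain ⟨j, -, hj⟩ := Nat.exists_mul_mod_eq_one_of_coprime h hn
  have hj1 : i * j ≡ 1 [MOD n] := by
    rw [Nat.ModEq, hj, Nat.mod_eq_of_lt hn]
  have hjc : j.Coprime n := by
    have h1 : (i * j).Coprime n := by
      have := hj1.gcd_eq
      rw [Nat.gcd_one_left] at this
      exact this
    exact Nat.Coprime.coprime_mul_left h1
  have key : ∀ x ∈ primitiveRoots n K, ∀ a b : ℕ, a * b ≡ 1 [MOD n] → (x ^ a) ^ b = x := by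
    intro x hx a b hab
    have hx1 := (mem_primitiveRoots hn0).1 hx
    rw [← pow_mul, pow_eq_pow_mod (a * b) hx1.pow_eq_one, hab,
      ← pow_eq_pow_mod 1 hx1.pow_eq_one, pow_one]
  refine Finset.sum_nbij' (fun x => x ^ i) (fun x => x ^ j) ?_ ?_ ?_ ?_ ?_
  · intro x hx
    exact (mem_primitiveRoots hn0).2 (((mem_primitiveRoots hn0).1 hx).pow_of_coprime i h)
  · intro x hx
    exact (mem_primitiveRoots hn0).2 (((mem_primitiveRoots hn0).1 hx).pow_of_coprime j hjc)
  · intro x hx
    exact key x hx i j hj1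
  · intro x hx
    exact key x hx j i (by rw [mul_comm]; exact hj1)
  · intro x _
    rfl

/-- the degree of the derivative -/
theorem natDegree_V {n : ℕ} (hn : 3 ≤ n) :
    (derivative (cyclotomic n ℤ)).natDegree + 1 = n.totient := by
  have h1 : 0 < n.totient := Nat.totient_pos.2 (by omega)
  rw [natDegree_derivative, natDegree_cyclotomic]
  omega

/-- the value of the reversed derivative -/
theorem rev_at (hRev : RevStmt) {n : ℕ} (hn : 3 ≤ n) {K : Type} [Field K] [CharZero K] {x : K}
    (hx : IsPrimitiveRoot x n) :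
    aeval x (derivative (cyclotomic n ℤ)).reverse =
      -(x * aeval x (derivative (cyclotomic n ℤ))) := by
  have h1 := congrArg (aeval x) (hRev n hn)
  have h2 : aeval x (cyclotomic n ℤ) = 0 := by
    rw [aeval_eq_eval_map, map_cyclotomic_int]
    exact hx.isRoot_cyclotomic (by omega)
  rw [map_add, map_mul, map_mul, h2, mul_zero, aeval_X] at h1
  linear_combination h1

theorem coeff_rev_top (f : ℤ[X]) : f.reverse.coeff f.natDegree = f.coeff 0 := by
  rw [coeff_reverse, revAt_le le_rfl, Nat.sub_self]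

/-- the sum of the primitive roots of unity -/
theorem sum_prim (hRev : RevStmt) (hCoe : CoeStmt) {n : ℕ} (hn : 3 ≤ n) (hs : Squarefree n)
    {K : Type} [Field K] [CharZero K] {z : K} (hz : IsPrimitiveRoot z n) :
    ∑ x ∈ primitiveRoots n K, x = 1 ∨ ∑ x ∈ primitiveRoots n K, x = -1 := by
  have hd := natDegree_V hn
  have hV : derivative (cyclotomic n ℤ) ≠ 0 := by
    intro h0
    rw [h0] at hd
    have h1 : n.totient = 1 := by rw [← hd]; simp
    have := Nat.totient_even (n := n) (by omega)
    rw [h1] at this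
    exact absurd this (by decide)
  have h1 := lag hz (derivative (cyclotomic n ℤ)).reverse (by
    have := reverse_natDegree_le (derivative (cyclotomic n ℤ))
    omega)
  have h2 : n.totient - 1 = (derivative (cyclotomic n ℤ)).natDegree := by omega
  rw [h2, coeff_rev_top, coeff_derivative] at h1
  have h3 : ∀ x ∈ primitiveRoots n K, aeval x (derivative (cyclotomic n ℤ)).reverse /
      aeval x (derivative (cyclotomic n ℤ)) = -x := by
    intro x hx
    have hx1 := (mem_primitiveRoots (by omega : 0 < n)).1 hx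
    have h4 : aeval x (derivative (cyclotomic n ℤ)) ≠ 0 := by
      have h5 : (cyclotomic n K).Separable := by
        have : NeZero (n : K) := ⟨by
          have : (n : K) ≠ 0 := Nat.cast_ne_zero.2 (by omega)
          exact this⟩
        exact separable_cyclotomic n K
      have h6 : aeval x (cyclotomic n K) = 0 := by
        rw [coe_aeval_eq_eval]
        exact hx1.isRoot_cyclotomic (by omega)
      have h7 := h5.aeval_derivative_ne_zero h6
      rw [aeval_eq_eval_map, ← derivative_map, map_cyclotomic_int]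
      rwa [coe_aeval_eq_eval] at h7
    rw [rev_at hRev hn hx1]
    field_simp
  rw [Finset.sum_congr rfl h3, Finset.sum_neg_distrib] at h1
  have h4 := (hCoe n hs (by omega)).2
  simp only [zero_add, Nat.cast_zero] at h1
  rcases h4 with h4 | h4
  · right
    rw [h4] at h1
    have : -∑ x ∈ primitiveRoots n K, x = 1 := by rw [h1]; norm_num
    linear_combination -this
  · left
    rw [h4] at h1
    have : -∑ x ∈ primitiveRoots n K, x = -1 := by rw [h1]; norm_num
    linear_combination -this

/-- one of the two leading coefficients is odd -/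
theorem not_both_even (hBas : BasStmt) (hCoe : CoeStmt) (hRev : RevStmt) {n : ℕ} {g h : ℤ[X]}
    (F : Fg n g h) : Odd g.leadingCoeff ∨ Odd h.leadingCoeff := by
  by_contra hcon
  push Not at hcon
  rw [Int.not_odd_iff_even, Int.not_odd_iff_even] at hcon
  obtain ⟨hg, hh⟩ := hcon
  have hn := F.hn
  have hd := natDegree_V hn
  obtain ⟨-, -, -, hdeg⟩ := hBas n g h F
  -- the top coefficients
  have hc0 := (hCoe n F.hs (by omega)).2
  have hc1 : (cyclotomic n ℤ).coeff (n.totient - 1) = (cyclotomic n ℤ).coeff 1 := by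
    have h1 := congrArg (fun f : ℤ[X] => f.coeff (n.totient - 1)) (hRev n hn)
    simp only [coeff_add, coeff_C_mul] at h1
    have e0 : 2 ≤ n.totient := by
      have := F.hg
      have := F.hh
      omega
    obtain ⟨k, hk⟩ : ∃ k, n.totient = k + 2 := ⟨n.totient - 2, by omega⟩
    have e1 : n.totient - 1 = (derivative (cyclotomic n ℤ)).natDegree := by omega
    have e2 : (derivative (cyclotomic n ℤ)).reverse.coeff (n.totient - 1) =
        (cyclotomic n ℤ).coeff 1 := by
      rw [e1, coeff_rev_top, coeff_derivative]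
      simp
    rw [e2] at h1
    have e3 : n.totient - 1 = k + 1 := by omega
    rw [e3, coeff_X_mul, coeff_derivative, hk] at h1
    rw [e3]
    push_cast at h1
    linarith
  have h2 : (derivative (cyclotomic n ℤ)).coeff (n.totient - 2) =
      (cyclotomic n ℤ).coeff 1 * ((n.totient : ℤ) - 1) := by
    have e0 : 2 ≤ n.totient := by
      have := F.hg
      have := F.hh
      omega
    obtain ⟨k, hk⟩ : ∃ k, n.totient = k + 2 := ⟨n.totient - 2, by omega⟩
    rw [coeff_derivative, ← hc1, hk]
    have e1 : k + 2 - 2 = k := by omega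
    have e2 : k + 2 - 1 = k + 1 := by omega
    rw [e1, e2]
    push_cast
    ring
  -- modulo 2
  have hg2 : (Int.castRingHom (ZMod 2)) g.leadingCoeff = 0 := by
    rw [eq_intCast, ZMod.intCast_zmod_eq_zero_iff_dvd]
    exact hg.two_dvd
  have hh2 : (Int.castRingHom (ZMod 2)) h.leadingCoeff = 0 := by
    rw [eq_intCast, ZMod.intCast_zmod_eq_zero_iff_dvd]
    exact hh.two_dvd
  have d1 := natDegree_map_lt' hg2 F.hg
  have d2 := natDegree_map_lt' hh2 F.hh
  have h3 : ((derivative (cyclotomic n ℤ)).map (Int.castRingHom (ZMod 2))).coeff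
      (n.totient - 2) = 0 := by
    rw [← F.fac, Polynomial.map_mul]
    apply coeff_eq_zero_of_natDegree_lt
    have := natDegree_mul_le (p := g.map (Int.castRingHom (ZMod 2)))
      (q := h.map (Int.castRingHom (ZMod 2)))
    omega
  rw [coeff_map, h2, eq_intCast, ZMod.intCast_zmod_eq_zero_iff_dvd] at h3
  have h4 : Even n.totient := Nat.totient_even (by omega)
  have h5 : ¬ (2 : ℤ) ∣ ((n.totient : ℤ) - 1) := by
    obtain ⟨r, hr⟩ := h4
    rw [hr]
    push_cast
    omega
  rcases hc0 with hc0 | hc0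
  · rw [hc0, one_mul] at h3
    exact h5 (by exact_mod_cast h3)
  · rw [hc0, neg_one_mul] at h3
    have h6 : (2 : ℤ) ∣ -((n.totient : ℤ) - 1) := by exact_mod_cast h3
    exact h5 ((dvd_neg).1 h6)

/-- half of the argument -/
theorem nru_half (hBas : BasStmt) (hCoe : CoeStmt) (hRev : RevStmt) (hExa : ExaStmt)
    (hAbs : AbsStmt) {n : ℕ} {g h : ℤ[X]} (F : Fg n g h) {K : Type} [Field K] [CharZero K]
    {z : K} (hz : IsPrimitiveRoot z n) {s : ℤ} {i : ℕ} (hs : s = 1 ∨ s = -1)
    (hu : uu g z = s * z ^ i) : ¬ Odd h.leadingCoeff := by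
  intro hodd
  have hn := F.hn
  have hn0 : 0 < n := by omega
  have hs2 : s * s = 1 := by rcases hs with rfl | rfl <;> norm_num
  -- the relation at all primitive roots
  have hrel : ∀ x : K, IsPrimitiveRoot x n →
      aeval x g.reverse = (s : K) * x ^ i * aeval x g := by
    intro x hx
    have h0 : aeval z (g.reverse - C s * X ^ i * g) = 0 := by
      have h1 := (hAbs n g h F K z hz).1
      rw [uu, div_eq_iff h1] at hu
      simp only [map_sub, map_mul, map_pow, aeval_X, aeval_C]
      rw [hu]
      simp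
    have h1 : minpoly ℤ z ∣ g.reverse - C s * X ^ i * g :=
      minpoly.isIntegrallyClosed_dvd (hz.isIntegral hn0) h0
    rw [← cyclotomic_eq_minpoly hz hn0] at h1
    obtain ⟨r, hr⟩ := h1
    have h2 := congrArg (aeval x) hr
    have h3 : aeval x (cyclotomic n ℤ) = 0 := by
      rw [aeval_eq_eval_map, map_cyclotomic_int]
      exact hx.isRoot_cyclotomic (by omega)
    rw [map_mul, h3, zero_mul] at h2
    simp only [map_sub, map_mul, map_pow, aeval_X, aeval_C] at h2
    have h4 := sub_eq_zero.1 h2
    rw [h4]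
    simp
  obtain ⟨hg0, -, -, hdeg⟩ := hBas n g h F
  obtain ⟨-, hlh, -, -⟩ := hBas n h g F.swap
  have hg00 : g.coeff 0 ≠ 0 := by rcases hg0 with h | h <;> rw [h] <;> norm_num
  have hdr : g.reverse.natDegree = g.natDegree := by
    rw [reverse_natDegree, natTrailingDegree_eq_zero_of_constantCoeff_ne_zero, Nat.sub_zero]
    exact hg00
  have hcoef : (g.reverse * h).coeff (n.totient - 1) = g.coeff 0 * h.leadingCoeff := by
    have e : n.totient - 1 = g.reverse.natDegree + h.natDegree := by omega
    rw [e, coeff_mul_degree_add_degree, leadingCoeff, hdr, coeff_rev_top]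
  have hlag := lag hz (g.reverse * h) (by
    have := natDegree_mul_le (p := g.reverse) (q := h)
    omega)
  rw [hcoef] at hlag
  have h3 : ∀ x ∈ primitiveRoots n K, aeval x (g.reverse * h) /
      aeval x (derivative (cyclotomic n ℤ)) = (s : K) * x ^ i := by
    intro x hx
    have hx1 := (mem_primitiveRoots hn0).1 hx
    obtain ⟨a1, -, -⟩ := hAbs n g h F K x hx1
    obtain ⟨a2, -, -⟩ := hAbs n h g F.swap K x hx1
    rw [← F.fac, map_mul, map_mul, hrel x hx1]
    field_simp
  rw [Finset.sum_congr rfl h3, ← Finset.mul_sum] at hlag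
  -- the value of the sum
  have hval : ∑ x ∈ primitiveRoots n K, x ^ i = ((s * (g.coeff 0 * h.leadingCoeff) : ℤ) : K) := by
    have h4 : (s : K) * s = 1 := by exact_mod_cast hs2
    have h5 : (s : K) * ((s : K) * ∑ x ∈ primitiveRoots n K, x ^ i) =
        (s : K) * ((g.coeff 0 * h.leadingCoeff : ℤ) : K) := by rw [hlag]
    rw [← mul_assoc, h4, one_mul] at h5
    rw [h5]
    push_cast
    ring
  by_cases hcop : i.Coprime n
  · rw [sum_coprime (by omega) hcop] at hval
    have h5 : s * (g.coeff 0 * h.leadingCoeff) = 1 ∨ s * (g.coeff 0 * h.leadingCoeff) = -1 := by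
      rcases sum_prim hRev hCoe hn F.hs hz with h6 | h6
      · left
        rw [h6] at hval
        exact_mod_cast hval.symm
      · right
        rw [h6] at hval
        exact_mod_cast hval.symm
    have h6 : |h.leadingCoeff| = 1 := by
      have e1 : |s * (g.coeff 0 * h.leadingCoeff)| = 1 := by
        rcases h5 with h5 | h5 <;> rw [h5] <;> norm_num
      rw [abs_mul, abs_mul] at e1
      have e2 : |s| = 1 := by rcases hs with rfl | rfl <;> norm_num
      have e3 : |g.coeff 0| = 1 := by rcases hg0 with h | h <;> rw [h] <;> norm_num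
      rw [e2, e3, one_mul, one_mul] at e1
      exact e1
    omega
  · obtain ⟨q, hq, hqi, hqn⟩ := Nat.Prime.not_coprime_iff_dvd.1 hcop
    have h5 := even_sum hExa F.ho F.hs hq hqn hqi _ hval
    have h6 : Odd (s * (g.coeff 0 * h.leadingCoeff)) := by
      refine Odd.mul ?_ (Odd.mul ?_ hodd)
      · rcases hs with rfl | rfl <;> decide
      · rcases hg0 with h | h <;> rw [h] <;> decide
    exact (Int.not_even_iff_odd.2 h6) h5

/-- The quotient `g*(ζ) / g(ζ)` is not a root of unity. -/
theorem nru (hBas : BasStmt) (hCoe : CoeStmt) (hRev : RevStmt) (hExa : ExaStmt)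
    (hAbs : AbsStmt) {n : ℕ} {g h : ℤ[X]} (F : Fg n g h) {K : Type} [Field K] [CharZero K]
    {z : K} (hz : IsPrimitiveRoot z n) {s : ℤ} {i : ℕ} (hs : s = 1 ∨ s = -1)
    (hu : uu g z = s * z ^ i) : False := by
  have hn := F.hn
  rcases not_both_even hBas hCoe hRev F with h1 | h1
  · have hs2 : s * s = 1 := by rcases hs with rfl | rfl <;> norm_num
    have hsK : (s : K) * s = 1 := by exact_mod_cast hs2
    refine nru_half hBas hCoe hRev hExa hAbs F.swap hz (s := -s) (i := 1 + (n - 1) * i) ?_ ?_ h1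
    · rcases hs with rfl | rfl
      · right; rfl
      · left; rfl
    · obtain ⟨a1, -, -⟩ := hAbs n g h F K z hz
      obtain ⟨a2, -, -⟩ := hAbs n h g F.swap K z hz
      have h2 := rev_at hRev hn hz
      rw [← F.fac, reverse_mul_of_domain, map_mul, map_mul] at h2
      rw [uu, div_eq_iff a1] at hu
      rw [hu] at h2
      have h3 : z ^ (1 + (n - 1) * i) * z ^ i = z := by
        rw [← pow_add]
        have e : 1 + (n - 1) * i + i = 1 + n * i := by
          obtain ⟨r, rfl⟩ : ∃ r, n = r + 1 := ⟨n - 1, by omega⟩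
          rw [Nat.add_sub_cancel]
          ring
        rw [e, pow_add, pow_mul, hz.pow_eq_one, one_pow, mul_one, pow_one]
      have hz0 : z ≠ 0 := hz.ne_zero (by omega)
      rw [uu, div_eq_iff a2]
      have h4 : aeval z g * (((s : K) * z ^ i) * aeval z h.reverse) =
          aeval z g * (-(z * aeval z h)) := by
        linear_combination h2
      have h5 := mul_left_cancel₀ a1 h4
      have h6 : z ^ i ≠ 0 := pow_ne_zero _ hz0
      apply mul_left_cancel₀ h6
      have h7 : (s : K) * ((s : K) * z ^ i * aeval z h.reverse) = z ^ i * aeval z h.reverse := by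
        rw [← mul_assoc, ← mul_assoc, hsK, one_mul]
      rw [← h7, h5]
      push_cast
      linear_combination (-(s : K) * aeval z h) * h3 * (-1)
  · exact nru_half hBas hCoe hRev hExa hAbs F hz hs hu h1

end Pool.Agent.CYE.H21
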