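import Pool.Agent.CYE.StmtsB

/-! # Squad CYE, row RPV: representations along the vertices -/

set_option autoImplicit false

open Polynomial IsLocalRing

namespace Pool.Agent.CYE.H21

open Pool.Agent.CYD

section arith

variable {ι : Type} [Fintype ι] [DecidableEq ι] {q : ι → ℕ} [hq : ∀ i, Fact (q i).Prime] {p m : ℕ}

theorem rest_spec (hp : p.Prime) (hpm : ¬ p ∣ m) (hinj : Function.Injective q)
    (hprod : ∏ i, q i = m) (i : ι) :
    p * m = q i * (p * m / q i) ∧ (p * m / q i).Coprime (q i) ∧ p ∣ p * m / q i ∧
      ∀ j, j ≠ i → q j ∣ p * m / q i := by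
  have hqi : (q i).Prime := (hq i).out
  have h1 : q i * ∏ j ∈ Finset.univ.erase i, q j = m := by
    rw [← hprod]
    exact Finset.mul_prod_erase Finset.univ q (Finset.mem_univ i)
  have h2 : p * m = q i * (p * ∏ j ∈ Finset.univ.erase i, q j) := by
    rw [← h1]
    ring
  have h3 : p * m / q i = p * ∏ j ∈ Finset.univ.erase i, q j := by
    rw [h2, Nat.mul_div_cancel_left _ hqi.pos]
  rw [h3]
  refine ⟨h2, ?_, Dvd.intro _ rfl, ?_⟩
  · refine Nat.Coprime.mul_left ?_ ?_
    · rw [Nat.coprime_primes hp hqi]
      rintro rfl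
      apply hpm
      rw [← h1]
      exact Dvd.intro _ rfl
    · refine Nat.Coprime.prod_left fun j hj => ?_
      rw [Nat.coprime_primes (hq j).out hqi]
      intro h
      exact (Finset.mem_erase.1 hj).1 (hinj h)
  · intro j hj
    exact Dvd.dvd.mul_left (Finset.dvd_prod_of_mem q (Finset.mem_erase.2 ⟨hj, Finset.mem_univ j⟩)) p

/-- a number with given residues -/
theorem exists_kappa (hp : p.Prime) (hpm : ¬ p ∣ m) (hinj : Function.Injective q)
    (hprod : ∏ i, q i = m) (i : ι) (r c : ℕ) (hr : r.Coprime (p * m / q i))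
    (hc : c.Coprime (q i)) :
    ∃ κ : ℕ, κ.Coprime (p * m) ∧ κ ≡ r [MOD p * m / q i] ∧ κ ≡ c [MOD q i] := by
  obtain ⟨h1, h2, -, -⟩ := rest_spec hp hpm hinj hprod i
  obtain ⟨κ, k1, k2⟩ := Nat.chineseRemainder h2 r c
  refine ⟨κ, ?_, k1, k2⟩
  rw [h1]
  refine Nat.Coprime.mul_right ?_ ?_
  · have := k2.gcd_eq
    rw [Nat.Coprime, this]
    exact hc
  · have := k1.gcd_eq
    rw [Nat.Coprime, this]
    exact hr

end arith

theorem rpv : RpvStmt := by
  intro ι _ _ q hq p m hp hpm hinj hprod K _ _ A z u A' B' μ hpA hu T hT b s hb hbs hV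
  -- the numbers κ
  have hF : ∀ i : ι, ∃ κ : ℕ, κ.Coprime (p * m) ∧ κ ≡ q i [MOD p * m / q i] ∧
      κ ≡ 1 [MOD q i] := by
    intro i
    obtain ⟨-, h2, -, -⟩ := rest_spec hp hpm hinj hprod i
    exact exists_kappa hp hpm hinj hprod i (q i) 1 h2.symm (Nat.coprime_one_left _)
  have hS : ∀ i : ι, ∃ κ : ℕ, κ.Coprime (p * m) ∧ κ ≡ 1 [MOD p * m / q i] ∧
      ((i, false) ∈ T → (κ : ZMod (q i)) * b i = b i + s i) := by
    intro i
    by_cases hi : (i, false) ∈ T
    · have h3 : ((b i + s i) * (b i)⁻¹ : ZMod (q i)) ≠ 0 :=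
        mul_ne_zero (hbs i hi) (inv_ne_zero (hb i))
      obtain ⟨κ, k1, k2, k3⟩ := exists_kappa hp hpm hinj hprod i 1
        ((b i + s i) * (b i)⁻¹ : ZMod (q i)).val (Nat.coprime_one_left _) (by
          have := (ZMod.isUnit_iff_coprime ((b i + s i) * (b i)⁻¹ : ZMod (q i)).val (q i)).1 (by
            rw [ZMod.natCast_val, ZMod.cast_id', id]
            exact isUnit_iff_ne_zero.2 h3)
          exact this)
      refine ⟨κ, k1, k2, fun _ => ?_⟩
      have h4 : (κ : ZMod (q i)) = (b i + s i) * (b i)⁻¹ := by
        have := (ZMod.natCast_eq_natCast_iff _ _ _).2 k3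
        rw [this, ZMod.natCast_val, ZMod.cast_id', id]
      rw [h4, mul_assoc, inv_mul_cancel₀ (hb i), mul_one]
    · obtain ⟨κ, k1, k2, -⟩ := exists_kappa hp hpm hinj hprod i 1 1 (Nat.coprime_one_left _)
        (Nat.coprime_one_left _)
      exact ⟨κ, k1, k2, fun h => absurd h hi⟩
  choose κF hF1 hF2 hF3 using hF
  choose κS hS1 hS2 hS3 using hS
  let φ : ι × Bool → ℕ × ℕ := fun x => if x.2 then (κF x.1, q x.1) else (κS x.1, 1)
  have hφ : ∀ x : ι × Bool, (φ x).1.Coprime (p * m) ∧ (φ x).1 ≡ (φ x).2 [MOD p] := by
    rintro ⟨i, c⟩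
    obtain ⟨-, -, h3, -⟩ := rest_spec hp hpm hinj hprod i
    cases c
    · exact ⟨hS1 i, (hS2 i).of_dvd h3⟩
    · exact ⟨hF1 i, (hF2 i).of_dvd h3⟩
  -- the induction
  have key : ∀ (T : List (ι × Bool)), (T.map Prod.fst).Nodup → ∀ b s : Pt q,
      (∀ i, (i, false) ∈ T → (κS i : ZMod (q i)) * b i = b i + s i) →
      Vx (fun v => ∀ k D : ℕ, k.Coprime (p * m) → k ≡ D [MOD p] →
        (∀ i, ((k : ℕ) : ZMod (q i)) = v i) →
        Rep p A z (u k) (C (D : ResidueField A) * expand _ D (A' v)) (expand _ D (B' v)) μ) T b s →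
      ∀ k D : ℕ, k.Coprime (p * m) → k ≡ D [MOD p] → (∀ i, ((k : ℕ) : ZMod (q i)) = b i) →
        Rep p A z (WW u (T.map φ) k) (C (D : ResidueField A) * expand _ D (NP A' B' T b s).1)
          (expand _ D (NP A' B' T b s).2) (2 ^ T.length * μ) := by
    intro T
    induction T with
    | nil =>
      intro _ b s _ hV k D hk hD hkb
      have := hV k D hk hD hkb
      simpa [WW, NP] using this
    | cons x t ih =>
      obtain ⟨i, c⟩ := x
      intro hT b s hbs hV k D hk hD hkb
      rw [List.map_cons, List.nodup_cons] at hT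
      obtain ⟨hit, hTt⟩ := hT
      have hne : ∀ j, (j, false) ∈ t → j ≠ i := by
        rintro j hj rfl
        exact hit (List.mem_map.2 ⟨(j, false), hj, rfl⟩)
      obtain ⟨-, -, hpd, hqd⟩ := rest_spec hp hpm hinj hprod i
      have hWne : WW u (t.map φ) k ≠ 0 := by
        refine WW_ne_zero29 u (p * m) hu (t.map φ) ?_ k hk
        intro y hy
        obtain ⟨y', -, rfl⟩ := List.mem_map.1 hy
        exact (hφ y').1
      have e1 : 2 ^ ((i, c) :: t).length * μ = 2 ^ t.length * μ + 2 ^ t.length * μ := by
        rw [List.length_cons, pow_succ]; ring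
      rw [e1]
      have e4 : WW u (((i, c) :: t).map φ) k =
        WW u (t.map φ) ((φ (i, c)).1 * k) / WW u (t.map φ) k := rfl
      rw [e4]
      cases c
      · -- shift
        have hV' : Vx (fun v => ∀ k D : ℕ, k.Coprime (p * m) → k ≡ D [MOD p] →
            (∀ i, ((k : ℕ) : ZMod (q i)) = v i) →
            Rep p A z (u k) (C (D : ResidueField A) * expand _ D (A' v)) (expand _ D (B' v)) μ)
            t (sh i s b) s ∧
          Vx (fun v => ∀ k D : ℕ, k.Coprime (p * m) → k ≡ D [MOD p] →
            (∀ i, ((k : ℕ) : ZMod (q i)) = v i) →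
            Rep p A z (u k) (C (D : ResidueField A) * expand _ D (A' v)) (expand _ D (B' v)) μ)
            t b s := hV
        obtain ⟨hV1, hV2⟩ := hV'
        have hbi := hbs i List.mem_cons_self
        have ih1 := ih hTt (sh i s b) s (by
          intro j hj
          have hji := hne j hj
          simp only [sh, if_neg hji]
          exact hbs j (List.mem_cons_of_mem _ hj)) hV1 (κS i * k) D
          (Nat.Coprime.mul_left (hS1 i) hk)
          (by
            have := ((hS2 i).of_dvd hpd).mul hD
            rwa [one_mul] at this)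
          (by
            intro j
            by_cases hji : j = i
            · subst hji
              have h6 : sh j s b j = b j + s j := by simp [sh]
              rw [h6, Nat.cast_mul, hkb, hbi]
            · simp only [sh, if_neg hji]
              have h5 : ((κS i : ℕ) : ZMod (q j)) = 1 := by
                have := (ZMod.natCast_eq_natCast_iff _ _ _).2 ((hS2 i).of_dvd (hqd j hji))
                rw [this, Nat.cast_one]
              rw [Nat.cast_mul, h5, one_mul, hkb])
        have ih2 := ih hTt b s (fun j hj => hbs j (List.mem_cons_of_mem _ hj)) hV2 k D hk hD hkb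
        have key := rpc p K A z _ _ _ _ _ _ _ _ hp.ne_zero hWne ih1 ih2
        have e2 : (NP A' B' ((i, false) :: t) b s).1 =
          (NP A' B' t (sh i s b) s).1 * (NP A' B' t b s).2 -
            (NP A' B' t b s).1 * (NP A' B' t (sh i s b) s).2 := rfl
        have e3 : (NP A' B' ((i, false) :: t) b s).2 =
          (NP A' B' t (sh i s b) s).2 * (NP A' B' t b s).2 := rfl
        have e5 : C (D : ResidueField A) * expand _ D (NP A' B' ((i, false) :: t) b s).1 =
            C (D : ResidueField A) * expand _ D (NP A' B' t (sh i s b) s).1 *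
              expand _ D (NP A' B' t b s).2 -
            C (D : ResidueField A) * expand _ D (NP A' B' t b s).1 *
              expand _ D (NP A' B' t (sh i s b) s).2 := by
          rw [e2, map_sub, map_mul, map_mul]
          ring
        have e6 : expand _ D (NP A' B' ((i, false) :: t) b s).2 =
            expand _ D (NP A' B' t (sh i s b) s).2 * expand _ D (NP A' B' t b s).2 := by
          rw [e3, map_mul]
        rw [e5, e6]
        exact key
      · -- Frobenius
        have hV' : Vx (fun v => ∀ k D : ℕ, k.Coprime (p * m) → k ≡ D [MOD p] →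
            (∀ i, ((k : ℕ) : ZMod (q i)) = v i) →
            Rep p A z (u k) (C (D : ResidueField A) * expand _ D (A' v)) (expand _ D (B' v)) μ)
            t (fr i b) (fr i s) ∧
          Vx (fun v => ∀ k D : ℕ, k.Coprime (p * m) → k ≡ D [MOD p] →
            (∀ i, ((k : ℕ) : ZMod (q i)) = v i) →
            Rep p A z (u k) (C (D : ResidueField A) * expand _ D (A' v)) (expand _ D (B' v)) μ)
            t b s := hV
        obtain ⟨hV1, hV2⟩ := hV'
        have ih1 := ih hTt (fr i b) (fr i s) (by
          intro j hj
          have hji := hne j hj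
          simp only [fr, if_neg hji]
          have := hbs j (List.mem_cons_of_mem _ hj)
          linear_combination (q i : ZMod (q j)) * this) hV1 (κF i * k) (D * q i)
          (Nat.Coprime.mul_left (hF1 i) hk)
          (by
            have := ((hF2 i).of_dvd hpd).mul hD
            rwa [mul_comm (q i) D] at this)
          (by
            intro j
            by_cases hji : j = i
            · subst hji
              have h6 : fr j b j = b j := by simp [fr]
              rw [h6]
              have h5 : ((κF j : ℕ) : ZMod (q j)) = 1 := by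
                have := (ZMod.natCast_eq_natCast_iff _ _ _).2 (hF3 j)
                rw [this, Nat.cast_one]
              rw [Nat.cast_mul, h5, one_mul, hkb]
            · simp only [fr, if_neg hji]
              have h5 : ((κF i : ℕ) : ZMod (q j)) = (q i : ZMod (q j)) :=
                (ZMod.natCast_eq_natCast_iff _ _ _).2 ((hF2 i).of_dvd (hqd j hji))
              rw [Nat.cast_mul, h5, hkb])
        have ih2 := ih hTt b s (fun j hj => hbs j (List.mem_cons_of_mem _ hj)) hV2 k D hk hD hkb
        have key := rpc p K A z _ _ _ _ _ _ _ _ hp.ne_zero hWne ih1 ih2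
        have e2 : (NP A' B' ((i, true) :: t) b s).1 =
          C (q i : ResidueField A) * expand _ (q i) (NP A' B' t (fr i b) (fr i s)).1 *
              (NP A' B' t b s).2 -
            (NP A' B' t b s).1 * expand _ (q i) (NP A' B' t (fr i b) (fr i s)).2 := rfl
        have e3 : (NP A' B' ((i, true) :: t) b s).2 =
          expand _ (q i) (NP A' B' t (fr i b) (fr i s)).2 * (NP A' B' t b s).2 := rfl
        have e5 : C (D : ResidueField A) * expand _ D (NP A' B' ((i, true) :: t) b s).1 =
            C ((D * q i : ℕ) : ResidueField A) *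
                expand _ (D * q i) (NP A' B' t (fr i b) (fr i s)).1 *
              expand _ D (NP A' B' t b s).2 -
            C (D : ResidueField A) * expand _ D (NP A' B' t b s).1 *
              expand _ (D * q i) (NP A' B' t (fr i b) (fr i s)).2 := by
          rw [e2, map_sub, map_mul, map_mul, map_mul, expand_C, expand_expand, expand_expand]
          push_cast
          rw [map_mul]
          ring
        have e6 : expand _ D (NP A' B' ((i, true) :: t) b s).2 =
            expand _ (D * q i) (NP A' B' t (fr i b) (fr i s)).2 *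
              expand _ D (NP A' B' t b s).2 := by
          rw [e3, map_mul, expand_expand]
        rw [e5, e6]
        exact key
  refine ⟨T.map φ, by rw [List.length_map], ?_, ?_, ?_⟩
  · intro x hx
    obtain ⟨y, -, rfl⟩ := List.mem_map.1 hx
    exact hφ y
  · intro i c hic
    refine ⟨φ (i, c), List.mem_map.2 ⟨(i, c), hic, rfl⟩, ?_⟩
    cases c
    · left
      exact hS2 i
    · right
      exact hF2 i
  · exact key T hT b s (fun i hi => hS3 i hi) hV

end Pool.Agent.CYE.H21
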