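import Pool.Agent.Helper21_CYE.Nrm

/-! # MP_734b60_nt: `|N g(ζ)| ≤ n ^ deg g`

The ring of integers modulo `g*(ζ)` is killed by `n` and generated by `deg g` elements, because
the leading coefficient of `g*` is `±1`. -/

set_option autoImplicit false

open Polynomial IsLocalRing NumberField

namespace Pool.Agent.CYE.H21

open Pool.Agent.CYD

theorem card_quot_le {K : Type} [Field K] [NumberField K] {n : ℕ} [NeZero n]
    [IsCyclotomicExtension {n} ℚ K] {z : K} (hz : IsPrimitiveRoot z n) (f : ℤ[X])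
    (hf : f.leadingCoeff = 1 ∨ f.leadingCoeff = -1) (hf1 : 1 ≤ f.natDegree)
    (hnI : ((n : ℕ) : 𝓞 K) ∈ Ideal.span {aeval hz.toInteger f}) :
    Nat.card (𝓞 K ⧸ Ideal.span {aeval hz.toInteger f}) ≤ n ^ f.natDegree := by
  set I : Ideal (𝓞 K) := Ideal.span {aeval hz.toInteger f} with hI
  set ζ : 𝓞 K := hz.toInteger with hζ
  obtain ⟨ε, hε, hM⟩ : ∃ ε : ℤ, ε * ε = 1 ∧ (C ε * f).Monic := by
    rcases hf with h | h
    · exact ⟨1, by norm_num, by rw [map_one, one_mul]; exact h⟩
    · refine ⟨-1, by norm_num, ?_⟩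
      rw [Monic, leadingCoeff_mul, leadingCoeff_C, h]
      norm_num
  have hε0 : ε ≠ 0 := by
    rintro rfl
    norm_num at hε
  have hdeg : (C ε * f).natDegree = f.natDegree := natDegree_C_mul hε0
  let φ : (Fin f.natDegree → Fin n) → 𝓞 K ⧸ I := fun a =>
    Ideal.Quotient.mk I (∑ i : Fin f.natDegree, ((a i : ℕ) : 𝓞 K) * ζ ^ (i : ℕ))
  have hsurj : Function.Surjective φ := by
    intro y
    obtain ⟨y, rfl⟩ := Ideal.Quotient.mk_surjective y
    obtain ⟨P, hP⟩ := hz.integralPowerBasis.exists_eq_aeval' y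
    rw [hz.integralPowerBasis_gen] at hP
    have h1 := modByMonic_add_div P (C ε * f)
    set R := P %ₘ (C ε * f) with hR
    have h2 : Ideal.Quotient.mk I y = Ideal.Quotient.mk I (aeval ζ R) := by
      rw [Ideal.Quotient.eq, hP, ← h1]
      rw [map_add, add_sub_cancel_left, map_mul, map_mul]
      apply Ideal.mul_mem_right
      apply Ideal.mul_mem_left
      exact Ideal.subset_span rfl
    -- the coefficients
    have hn0 : (0 : ℤ) < n := by exact_mod_cast NeZero.pos n
    have hcoef : ∀ i : ℕ, ∃ b : Fin n, (n : ℤ) ∣ R.coeff i - ((b : ℕ) : ℤ) := by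
      intro i
      refine ⟨⟨(R.coeff i % n).toNat, ?_⟩, ?_⟩
      · have e1 := Int.emod_lt_of_pos (R.coeff i) hn0
        have e2 := Int.emod_nonneg (R.coeff i) hn0.ne'
        omega
      · have e2 := Int.emod_nonneg (R.coeff i) hn0.ne'
        show (n : ℤ) ∣ R.coeff i - (((R.coeff i % n).toNat : ℕ) : ℤ)
        rw [Int.toNat_of_nonneg e2]
        exact Int.dvd_self_sub_emod
    choose b hb using hcoef
    refine ⟨fun i => b i, ?_⟩
    rw [h2]
    have h3 : aeval ζ R = ∑ i ∈ Finset.range f.natDegree, (R.coeff i : 𝓞 K) * ζ ^ i := by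
      rw [aeval_eq_sum_range' (n := f.natDegree)]
      · refine Finset.sum_congr rfl fun i _ => ?_
        rw [zsmul_eq_mul]
      · rw [← hdeg]
        apply natDegree_modByMonic_lt P hM
        intro h1
        rw [h1, natDegree_one] at hdeg
        omega
    rw [h3]
    show Ideal.Quotient.mk I _ = _
    rw [Finset.sum_range, map_sum, map_sum]
    refine Finset.sum_congr rfl fun i _ => ?_
    rw [Ideal.Quotient.eq, ← sub_mul]
    apply Ideal.mul_mem_right
    obtain ⟨q, hq⟩ := hb i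
    have h4 : (((b i : ℕ) : 𝓞 K) - (R.coeff i : 𝓞 K)) = -((n : ℕ) : 𝓞 K) * (q : 𝓞 K) := by
      have h5 : (R.coeff i : 𝓞 K) - ((b i : ℕ) : 𝓞 K) = ((n : ℕ) : 𝓞 K) * (q : 𝓞 K) := by
        have := congrArg (fun t : ℤ => (t : 𝓞 K)) hq
        simpa using this
      linear_combination -h5
    rw [h4]
    apply Ideal.mul_mem_right
    exact (Ideal.neg_mem_iff I).2 hnI
  have h5 := Nat.card_le_card_of_surjective φ hsurj
  refine h5.trans ?_
  simp

theorem coe_aeval {K : Type} [Field K] [NumberField K] {n : ℕ} [NeZero n] {z : K}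
    (hz : IsPrimitiveRoot z n) (f : ℤ[X]) : ((aeval hz.toInteger f : 𝓞 K) : K) = aeval z f := by
  have h := hom_eval₂ f (algebraMap ℤ (𝓞 K)) (algebraMap (𝓞 K) K) hz.toInteger
  rw [aeval_def, aeval_def]
  have h2 : (algebraMap (𝓞 K) K).comp (algebraMap ℤ (𝓞 K)) = algebraMap ℤ K :=
    RingHom.ext_int _ _
  rw [h2] at h
  exact h

/-- RES: the norm of `g(ζ)` is at most `n ^ deg g`. -/
theorem res (hDvd : DvdStmt) (hBas : BasStmt) (hRev : RevStmt) (hAbs : AbsStmt) {n : ℕ}
    {g h : ℤ[X]} (F : Fg n g h) {K : Type} [Field K] [NumberField K]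
    [IsCyclotomicExtension {n} ℚ K] {z : K} (hz : IsPrimitiveRoot z n) :
    |Algebra.norm ℚ (aeval z g)| ≤ (n : ℚ) ^ g.natDegree := by
  have hn := F.hn
  have hn0 : 0 < n := by omega
  have : NeZero n := ⟨hn0.ne'⟩
  obtain ⟨hg0, -, -, -⟩ := hBas n g h F
  have hg00 : g.coeff 0 ≠ 0 := by rcases hg0 with h | h <;> rw [h] <;> norm_num
  have hdr : g.reverse.natDegree = g.natDegree := by
    rw [reverse_natDegree, natTrailingDegree_eq_zero_of_constantCoeff_ne_zero, Nat.sub_zero]
    exact hg00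
  have hlc : g.reverse.leadingCoeff = 1 ∨ g.reverse.leadingCoeff = -1 := by
    rw [leadingCoeff, hdr, coeff_rev_top]
    exact hg0
  -- the ideal contains `n`
  have hmem : ((n : ℕ) : 𝓞 K) ∈ Ideal.span {aeval hz.toInteger g.reverse} := by
    obtain ⟨v, hv⟩ := hDvd n g h F
    obtain ⟨r, hr⟩ := hv
    have h1 : aeval z g * aeval z h * aeval z v = (n : K) := by
      have h2 := congrArg (aeval z) hr
      have h3 : aeval z (cyclotomic n ℤ) = 0 := by
        rw [aeval_eq_eval_map, map_cyclotomic_int]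
        exact hz.isRoot_cyclotomic (by omega)
      rw [map_mul, h3, zero_mul] at h2
      simp only [map_sub, map_mul, aeval_C] at h2
      have h4 := sub_eq_zero.1 h2
      rw [h4]
      simp
    have h2 := rev_at hRev hn hz
    rw [← F.fac, reverse_mul_of_domain, map_mul, map_mul] at h2
    rw [Ideal.mem_span_singleton]
    refine ⟨-(hz.toInteger ^ (n - 1) * aeval hz.toInteger h.reverse * aeval hz.toInteger v), ?_⟩
    apply RingOfIntegers.ext
    have e1 : (((n : ℕ) : 𝓞 K) : K) = (n : K) := by simp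
    rw [e1]
    simp only [map_mul, map_neg, map_pow]
    have e3 : ∀ f : ℤ[X], (algebraMap (𝓞 K) K) (aeval hz.toInteger f) = aeval z f :=
      fun f => coe_aeval hz f
    rw [e3, e3, e3]
    have h5 : z ^ (n - 1) * z = 1 := by
      rw [← pow_succ, Nat.sub_add_cancel hn0]
      exact hz.pow_eq_one
    show (n : K) = aeval z g.reverse * -(z ^ (n - 1) * aeval z h.reverse * aeval z v)
    rw [← h1]
    linear_combination (-(z ^ (n - 1) * aeval z v)) * h2 * (-1) -
      (aeval z g * aeval z h * aeval z v) * h5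
  have h1 := card_quot_le hz g.reverse hlc (by rw [hdr]; exact F.hg) hmem
  rw [hdr] at h1
  have h2 : Ideal.absNorm (Ideal.span {aeval hz.toInteger g.reverse}) =
      (Algebra.norm ℤ (aeval hz.toInteger g.reverse)).natAbs := Ideal.absNorm_span_singleton _
  rw [Ideal.absNorm_apply, Submodule.cardQuot_apply] at h2
  rw [h2] at h1
  -- the norm of the reverse
  have h3 : |Algebra.norm ℚ (aeval z g.reverse)| ≤ (n : ℚ) ^ g.natDegree := by
    have h4 := Algebra.coe_norm_int (aeval hz.toInteger g.reverse)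
    rw [coe_aeval] at h4
    rw [← h4]
    have h5 : ((|Algebra.norm ℤ (aeval hz.toInteger g.reverse)| : ℤ) : ℚ) =
        (((Algebra.norm ℤ (aeval hz.toInteger g.reverse)).natAbs : ℕ) : ℚ) := by
      rw [Int.abs_eq_natAbs]
      simp
    rw [← Int.cast_abs, h5]
    exact_mod_cast h1
  have h4 : |((Algebra.norm ℚ (aeval z g.reverse) : ℚ) : ℝ)| =
      |((Algebra.norm ℚ (aeval z g) : ℚ) : ℝ)| := by
    rw [ngr_norm_prod, ngr_norm_prod]
    refine Finset.prod_congr rfl fun σ _ => ?_
    obtain ⟨a1, -, a3⟩ := hAbs n g h F K z hz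
    have h4 := a3 σ.toRingHom
    have h5 : ‖σ (uu g z)‖ = 1 := h4
    rw [uu, map_div₀, norm_div, div_eq_one_iff_eq] at h5
    · exact h5
    · rw [norm_ne_zero_iff]
      exact (map_ne_zero σ).2 a1
  have h5 : |Algebra.norm ℚ (aeval z g.reverse)| = |Algebra.norm ℚ (aeval z g)| := by
    exact_mod_cast h4
  rw [← h5]
  exact h3

/-- DEG: the degree of a proper factor of the derivative of the cyclotomic polynomial. -/
def DegStmt : Prop :=
  ∀ (n : ℕ) (g h : ℤ[X]), Fg n g h → 2 ^ n.totient ≤ n ^ (6 * g.natDegree)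

theorem deg_mod (hDvd : DvdStmt) (hBas : BasStmt) (hCoe : CoeStmt) (hRev : RevStmt)
    (hExa : ExaStmt) (hAbs : AbsStmt) : DegStmt := by
  intro n g h F
  have hn := F.hn
  have hn0 : 0 < n := by omega
  have : NeZero n := ⟨hn0.ne'⟩
  have key : ∀ (K : Type) [Field K] [NumberField K] [IsCyclotomicExtension {n} ℚ K],
      2 ^ n.totient ≤ n ^ (6 * g.natDegree) := by
    intro K _ _ _
    have hz : IsPrimitiveRoot (IsCyclotomicExtension.zeta n ℚ K) n :=
      IsCyclotomicExtension.zeta_spec n ℚ K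
    have h1 := two_pow_le_norm hBas hCoe hRev hExa hAbs F hz
    have h2 := res hDvd hBas hRev hAbs F hz
    have h3 : |((Algebra.norm ℚ (aeval (IsCyclotomicExtension.zeta n ℚ K) g) : ℚ) : ℝ)| ≤
        (n : ℝ) ^ g.natDegree := by exact_mod_cast h2
    have h4 : (2 : ℝ) ^ n.totient ≤ ((n : ℝ) ^ g.natDegree) ^ 6 :=
      h1.trans (pow_le_pow_left₀ (abs_nonneg _) h3 6)
    rw [← pow_mul, mul_comm g.natDegree 6] at h4
    exact_mod_cast h4
  have hI : @IsCyclotomicExtension {n} ℚ (CyclotomicField n ℚ) _ _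
      DivisionRing.toRatAlgebra := by
    have e : (DivisionRing.toRatAlgebra : Algebra ℚ (CyclotomicField n ℚ)) =
        CyclotomicField.algebra n ℚ := Subsingleton.elim _ _
    rw [e]
    exact CyclotomicField.isCyclotomicExtension n ℚ
  exact key (CyclotomicField n ℚ)

end Pool.Agent.CYE.H21
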